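import Pool.Agent.MP_3ee8cb_gt.CYO.Link
import Pool.Agent.MP_3ee8cb_gt.DNOD.Fin

/-! The Riccati inequality along a good orbit. -/

namespace Pool.Agent.MP_3ee8cb_gt.CYO

open Module DN DN.Dia
open scoped RealInnerProductSpace

noncomputable section

variable [Dim] {m m' : MF} {z : V × V} {φ : V × V → V × V} {a : ℝ}

/-- The derivatives of the two operators along the flow. -/
theorem Gd.der (g : Gd m m' φ a z) (h : m.OK) (hj : m.Jac) (h' : m'.OK) (hj' : m'.Jac)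
    (hc : C0F m m' φ) (e : V) : ∃ p q : V,
      ⟪p, m'.A' (fr φ z.1) z.2 e⟫ - ⟪q, m'.A (fr φ z.1) z.2 e⟫ = -‖e‖ ^ 2 ∧
      HasDerivAt (fun t => m'.A (fr φ (m.Z t z).1) (m.Z t z).2 e)
        (m'.A' (fr φ z.1) z.2 e - m'.w (φ z) 0 (m'.A (fr φ z.1) z.2 e) + p) 0 ∧
      HasDerivAt (fun t => m'.A' (fr φ (m.Z t z).1) (m.Z t z).2 e)
        (-m'.K (φ z).1 (m'.A (fr φ z.1) z.2 e) (φ z).2 (φ z).2 -
          m'.w (φ z) 0 (m'.A' (fr φ z.1) z.2 e) + q) 0 := by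
  have z0 := g.ne
  let p : ℝ → V × V →L[ℝ] V := fun t => (m.hor (m.Z t z)).comp (fderiv ℝ (m.Z t) z)
  let p' : ℝ → V × V →L[ℝ] V := fun t => (m.ver (m.Z t z)).comp (fderiv ℝ (m.Z t) z)
  let Q : ℝ → V × V →L[ℝ] V := fun t =>
    (m'.hor (m'.Z t (φ z))).comp ((fderiv ℝ (m'.Z t) (φ z)).comp (fderiv ℝ φ z))
  let Q' : ℝ → V × V →L[ℝ] V := fun t =>
    (m'.ver (m'.Z t (φ z))).comp ((fderiv ℝ (m'.Z t) (φ z)).comp (fderiv ℝ φ z))
  obtain ⟨ξ, h1, h2⟩ := path (P := fun t => (p t).prod (p' t))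
    (fun t x k => of_not_not fun x0 => dZ_ne h x0 t
      (hv_inj h (congrArg Prod.fst k) (congrArg Prod.snd k)))
    (fun x => (hj.d1 z x 0).differentiableAt.prodMk (hj.d2 z x 0).differentiableAt) (0, e)
  have a1 : ∀ t, m.J z (ξ t) t = 0 := fun t => congrArg Prod.fst (h1 t)
  have a2 : ∀ t, m.J' z (ξ t) t = e := fun t => congrArg Prod.snd (h1 t)
  have a3 : ∀ t, fderiv ℝ (m.Z t) z (ξ t) = (0, e) := fun t => by
    refine sub_eq_zero.1 (hv_inj h (z := m.Z t z) ?_ ?_)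
    · rw [map_sub, show m.hor _ _ = 0 from a1 t]
      simp [MF.hor]
    · rw [map_sub, show m.ver _ _ = e from a2 t]
      simp [MF.ver]
  have a4 : ∀ t, fderiv ℝ (fr φ (m.Z t z).1) (m.Z t z).2 e =
      fderiv ℝ (m'.Z t) (φ z) (fderiv ℝ φ z (ξ t)) := fun t => by
    rw [fr_der (dif_fl h hj h' hc z0 g.dif t), ← chain h hj h' hc z0 g.dif, a3]
    rfl
  have a5 : ∀ t, fr φ (m.Z t z).1 (m.Z t z).2 = m'.Z t (φ z) := fun t => hc.flow t z z0
  have b1 : (fun t => m'.A (fr φ (m.Z t z).1) (m.Z t z).2 e) = fun t => Q t (ξ t) :=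
    funext fun t => by rw [MF.A, ContinuousLinearMap.comp_apply, a4, a5]; rfl
  have b2 : (fun t => m'.A' (fr φ (m.Z t z).1) (m.Z t z).2 e) = fun t => Q' t (ξ t) :=
    funext fun t => by rw [MF.A', ContinuousLinearMap.comp_apply, a4, a5]; rfl
  have c1 : m'.J (φ z) (fderiv ℝ φ z (ξ 0)) 0 = m'.A (fr φ z.1) z.2 e := by
    have := (congrFun b1 0).symm
    rwa [h.zero] at this
  have c2 : m'.J' (φ z) (fderiv ℝ φ z (ξ 0)) 0 = m'.A' (fr φ z.1) z.2 e := by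
    have := (congrFun b2 0).symm
    rwa [h.zero] at this
  have d0 := der_app (P := p) (fun x => hj.d1 z x 0) h2.hasDerivAt
  rw [show (fun s => p s (ξ s)) = fun _ => 0 from funext a1, a1, a2, map_zero, sub_zero] at d0
  have d1 : m.J z (deriv ξ 0) 0 = -e := eq_neg_of_add_eq_zero_right (d0.unique (hasDerivAt_const _ _))
  have d2 := der_app (P := Q) (fun x => hj'.d1 (φ z) (fderiv ℝ φ z x) 0) h2.hasDerivAt
  have d3 := der_app (P := Q') (fun x => hj'.d2 (φ z) (fderiv ℝ φ z x) 0) h2.hasDerivAt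
  rw [c1, c2, ← b1] at d2
  rw [c1, c2, ← b2, h'.zero] at d3
  refine ⟨_, _, ?_, d2, d3⟩
  have s := (hj'.symp _ _ _ 0).trans ((g.om (deriv ξ 0) (ξ 0)).trans (hj.symp z _ _ 0).symm)
  rwa [c1, c2, a1, a2, d1, inner_zero_right, sub_zero, inner_neg_left,
    real_inner_self_eq_norm_sq] at s

theorem Gd.eA (g : Gd m m' φ a z) (h' : m'.OK) (e : V) :
    m'.J (φ z) (fderiv ℝ φ z (0, e)) 0 = m'.A (fr φ z.1) z.2 e ∧
      m'.J' (φ z) (fderiv ℝ φ z (0, e)) 0 = m'.A' (fr φ z.1) z.2 e := by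
  rw [MF.A, MF.A', fr_der g.dif]
  exact J_zero h' _ _

theorem Gd.dia (g : Gd m m' φ a z) (h : m.OK) (h' : m'.OK) {e : V} (he : ⟪z.2, e⟫ = 0)
    (e0 : e ≠ 0) : a * ‖m'.A (fr φ z.1) z.2 e‖ < ‖m'.A' (fr φ z.1) z.2 e‖ := by
  rw [← (g.eA h' e).1, ← (g.eA h' e).2]
  exact g.lt 0 0 (0, e) ((J_zero h z _).1.trans (by simp [MF.hor])) (by simpa [MF.ver] using he)
    fun k => e0 (congrArg Prod.snd k)

theorem Gd.pt (g : Gd m m' φ a z) (h : m.OK) (h' : m'.OK) (hc : C0F m m' φ) (ha : 0 < a) :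
    Pt a z.2 (φ z).2 (m'.A (fr φ z.1) z.2) (m'.A' (fr φ z.1) z.2) := by
  have eA := fun e => ((J_zero h' _ _).1.symm.trans (g.eA h' e).1).symm
  have eA' := fun e => ((J_zero h' _ _).2.symm.trans (g.eA h' e).2).symm
  have t1 : ∀ e, ⟪(φ z).2, m'.A' (fr φ z.1) z.2 e⟫ = ⟪z.2, e⟫ := fun e => by
    rw [eA', ver_phi h h' hc g.ne g.dif]
    simp [MF.ver]
  refine ⟨t1, fun e => ?_, fun e e' => ?_, fun e k => of_not_not fun e0 => ?_, fun e he => ?_⟩
  · rw [eA, g.al]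
    simp [MF.hor]
  · rw [eA, eA, eA', eA', ← sub_eq_zero, g.om]
    simp [MF.hor]
  · have := g.dia h h' (by rw [← t1, k, inner_zero_right]) e0
    rw [k, norm_zero] at this
    exact this.not_ge (by positivity)
  · by_cases e0 : e = 0
    · simp [e0]
    refine (mul_le_mul_of_nonneg_left (abs_real_inner_le_norm _ _) ha.le).trans ?_
    rw [← mul_assoc, sq]
    exact mul_le_mul_of_nonneg_right (g.dia h h' he e0).le (norm_nonneg _)

theorem hs_sm {B : V →L[ℝ] V} (hB : B.toLinearMap.IsSymmetric)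
    {f : OrthonormalBasis (Fin dm) ℝ V} {b : Fin dm → ℝ} (e : ∀ i, B (f i) = b i • f i) (a : ℝ) :
    DF.hs (a • B) = a ^ 2 * ∑ i, b i ^ 2 := by
  rw [← hs_eq hB e (EuclideanSpace.basisFun (Fin dm) ℝ), Finset.mul_sum]
  refine Finset.sum_congr rfl fun i _ => ?_
  rw [smul_apply, norm_smul, mul_pow, Real.norm_eq_abs, sq_abs, EuclideanSpace.basisFun_apply]

theorem Gd.bd (g : Gd m m' φ a z) (h : m.OK) (h' : m'.OK) (hc : C0F m m' φ) (ha : 0 < a) :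
    (m'.A' (fr φ z.1) z.2).det ≠ 0 ∧ a * ‖m'.B (fr φ z.1) z.2‖ ≤ 1 ∧
      |m'.tr (fr φ z.1) z.2| ≤ dm / a := by
  have P := g.pt h h' hc ha
  obtain ⟨f, b, e, bd⟩ := P.eig
  have b1 : ∀ i, |b i| ≤ a⁻¹ := fun i => by
    rw [← mul_one a⁻¹, le_inv_mul_iff₀ ha]
    exact bd i
  refine ⟨(had_log f _ _ fun i => (inv_app P.inj).1 (f i)).1, ?_, ?_⟩
  · have k := op_sq P.sym e (sq_nonneg a⁻¹) fun i => by
      rw [← sq_abs]
      exact pow_le_pow_left₀ (abs_nonneg _) (b1 i) 2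
    have := le_of_sq_le_sq k (inv_pos.2 ha).le
    rwa [← mul_one a⁻¹, le_inv_mul_iff₀ ha] at this
  · rw [MF.tr, LinearMap.trace_eq_sum_inner _ f]
    refine (Finset.abs_sum_le_sum_abs _ _).trans ((Finset.sum_le_sum
      (g := fun _ => a⁻¹) fun i _ => ?_).trans_eq (by simp [div_eq_mul_inv]))
    have e1 : m'.B (fr φ z.1) z.2 (f i) = b i • f i := e i
    rw [ContinuousLinearMap.coe_coe, e1, real_inner_smul_right, real_inner_self_eq_norm_sq,
      f.orthonormal.1, one_pow, mul_one]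
    exact b1 i

theorem Gd.ric (g : Gd m m' φ a z) (h : m.OK) (hj : m.Jac) (h' : m'.OK) (hj' : m'.Jac)
    (hc : C0F m m' φ) (ha : 0 < a) (hu' : m'.Up (a ^ 2)) :
    ∃ d, HasDerivAt (fun t => m'.tr (fr φ (m.Z t z).1) (m.Z t z).2) d 0 ∧
      d ≤ 2 * (min (wt m' (fr φ z.1) a z.2) (1 + dm / 2) - 1) := by
  have n1 : ‖(φ z).2‖ = 1 := (hc.norm z g.ne).trans g.unit
  choose p q s d1 d2 using g.der h hj h' hj' hc
  have Pz := g.pt h h' hc ha
  obtain ⟨f, b, hf, -⟩ := Pz.eig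
  have it := fun t => ((g.flow h hj h' hj' hc t).pt h h' hc ha).inj
  obtain ⟨L, hL⟩ := hj'.lK (φ z).1
  obtain ⟨e, he⟩ : ∃ e : Fin dm → V, e = fun i => (m'.A' (fr φ z.1) z.2).inverse (f i) := ⟨_, rfl⟩
  have e1 : ∀ i, m'.A' (fr φ z.1) z.2 (e i) = f i := fun i => he ▸ (inv_app Pz.inj).1 _
  have e2 : ∀ i, m'.A (fr φ z.1) z.2 (e i) = b i • f i := fun i => he ▸ hf i
  have k : ∀ i, ∃ d, HasDerivAt (fun t => ⟪f i, m'.A (fr φ (m.Z t z).1) (m.Z t z).2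
      ((m'.A' (fr φ (m.Z t z).1) (m.Z t z).2).inverse (f i))⟫) d 0 ∧
        d ≤ 1 - ‖e i‖ ^ 2 - a ^ 2 * b i ^ 2 := fun i => by
    obtain ⟨ξ, x1, x2⟩ := path it (fun x => (d2 x).differentiableAt) (f i)
    have x3 : ∀ t, (m'.A' (fr φ (m.Z t z).1) (m.Z t z).2).inverse (f i) = ξ t := fun t => by
      rw [← x1 t, (inv_app (it t)).2]
    have x4 : ξ 0 = e i := by rw [← x3, h.zero, he]
    have y1 := der_app d1 x2.hasDerivAt
    have y2 := der_app d2 x2.hasDerivAt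
    rw [funext x1] at y2
    have y3 := congrArg (⟪b i • f i, ·⟫) (y2.unique (hasDerivAt_const _ _))
    simp only [x3]
    refine ⟨_, (innerSL ℝ (f i)).hasFDerivAt.comp_hasDerivAt 0 y1, ?_⟩
    have y4 := Pz.lag (e i) (deriv ξ 0)
    have y5 := s (e i)
    have y6 := hu' (φ z).1 (b i • f i) (φ z).2
    have y7 : ⟪f i, m'.w (φ z) 0 (f i)⟫ = 0 := (real_inner_comm _ _).trans (skew0 h' _ _ _)
    rw [real_inner_comm (φ z).2, ← e2, Pz.t2, e2, n1, norm_smul, f.orthonormal.1] at y6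
    simp only [x4, h.zero, e1, e2, innerSL_apply_apply, inner_add_right, inner_sub_right,
      inner_neg_right, map_smul, real_inner_smul_right, real_inner_smul_left, y7, hL, smul_apply,
      real_inner_self_eq_norm_sq, f.orthonormal.1, inner_zero_right, Real.norm_eq_abs, mul_one,
      sq_abs, real_inner_comm (f i)] at y3 y4 y5 y6 ⊢
    nlinarith
  choose d k1 k2 using k
  refine ⟨∑ i, d i, ?_, ?_⟩
  · simp only [MF.tr, MF.B, LinearMap.trace_eq_sum_inner _ f]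
    exact HasDerivAt.fun_sum fun i _ => k1 i
  have y0 := abs_pos.2 (had_log f e _ e1).1
  have s1 := Finset.sum_le_sum fun i (_ : i ∈ Finset.univ) => k2 i
  have s2 : ∑ i, d i ≤ ∑ _i : Fin dm, (1 : ℝ) := Finset.sum_le_sum fun i _ => by
    nlinarith [k2 i, sq_nonneg ‖e i‖, mul_nonneg (sq_nonneg a) (sq_nonneg (b i))]
  rw [Finset.sum_sub_distrib, ← Finset.mul_sum] at s1
  rw [Finset.sum_const, Finset.card_univ, Fintype.card_fin, nsmul_eq_mul, mul_one] at s2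
  have s3 := (had_log f e _ e1).2
  have s4 := Real.log_le_sub_one_of_pos (mul_pos y0
    (Real.exp_pos (-(DF.hs (a • m'.B (fr φ z.1) z.2) / 4))))
  have s5 : DF.hs (a • m'.B (fr φ z.1) z.2) = a ^ 2 * ∑ i, b i ^ 2 := hs_sm Pz.sym hf a
  have s6 : 0 ≤ a ^ 2 * ∑ i, b i ^ 2 := by positivity
  rw [Real.log_mul y0.ne' (Real.exp_pos _).ne', Real.log_exp] at s4
  rcases le_total (wt m' (fr φ z.1) a z.2) (1 + dm / 2) with k | k
  · rw [min_eq_left k, wt]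
    linarith
  · rw [min_eq_right k]
    linarith

end

end Pool.Agent.MP_3ee8cb_gt.CYO
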