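import Pool.Agent.MP_3ee8cb_gt.DNSI.Int

/-! Averaging of measurable functions. -/

namespace Pool.Agent.MP_3ee8cb_gt.CYO

open Set MeasureTheory Function Metric Filter Topology DN DN.SI
open CR (FdP)

noncomputable section

theorem flow_ae {X : Type} [MeasurableSpace X] (ν : Measure X) [IsFiniteMeasure ν]
    (Z : ℝ → X → X) (hZ : Measurable fun p : ℝ × X => Z p.1 p.2) (H : X → ℝ)
    (mH : Measurable H) (C K : ℝ) (bH : ∀ x, |H x| ≤ C)
    (iH : ∀ t, ∫ x, H (Z t x) ∂ν = ∫ x, H x ∂ν)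
    (le : ∀ᵐ x ∂ν, ∀ S, 0 ≤ S → -K ≤ ∫ t in (0 : ℝ)..S, H (Z t x)) : 0 ≤ ∫ x, H x ∂ν := by
  have k : ∀ S, 0 ≤ S → -K * ν.real univ ≤ S * ∫ x, H x ∂ν := fun S hS => by
    have j2 : Integrable (uncurry fun x t => H (Z t x)) (ν.prod (volume.restrict (Ioc 0 S))) :=
      .of_bound (mH.comp (hZ.comp measurable_swap)).aestronglyMeasurable C
        (.of_forall fun _ => bH _)
    have k := integral_mono_ae (integrable_const (-K)) j2.integral_prod_left (le.mono fun x h => by
      have := h S hS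
      rw [intervalIntegral.integral_of_le hS] at this
      exact this)
    have k2 := integral_integral_swap j2
    simp only [iH, integral_const, MeasurableSet.univ, measureReal_restrict_apply, univ_inter,
      Real.volume_real_Ioc_of_le hS, sub_zero, smul_eq_mul] at k2 k
    rw [mul_comm]
    exact k.trans_eq k2
  refine not_lt.1 fun h => ?_
  have := k ((|K * ν.real univ| + 1) / -∫ x, H x ∂ν) (div_nonneg (by positivity) (by linarith))
  rw [div_neg, neg_mul, neg_mul, div_mul_cancel₀ _ h.ne] at this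
  linarith [le_abs_self (K * ν.real univ)]

/-- Polar coordinates with the weight `‖v‖`, as an identity. -/
theorem polar_eq {E : Type} [NormedAddCommGroup E] [NormedSpace ℝ E] [FiniteDimensional ℝ E]
    [Nontrivial E] [MeasurableSpace E] [BorelSpace E] (μ : Measure E) [μ.IsAddHaarMeasure] :
    ∃ c : ℝ, 0 < c ∧ ∀ w : E → ℝ, ∫ v in ball (0 : E) 1, ‖v‖ * w (‖v‖⁻¹ • v) ∂μ =
      (∫ s : sphere (0 : E) 1, w s ∂μ.toSphere) * c := by
  let χ : Ioi (0 : ℝ) → ℝ := (Iio (⟨1, mem_Ioi.2 one_pos⟩ : Ioi (0 : ℝ))).indicator fun r => r.1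
  have h2 : 0 ≤ ∫ r, χ r ∂Measure.volumeIoiPow (Module.finrank ℝ E - 1) :=
    integral_nonneg fun r => indicator_nonneg (fun r _ => le_of_lt r.2) r
  have k : ∀ w : E → ℝ, ∫ v in ball (0 : E) 1, ‖v‖ * w (‖v‖⁻¹ • v) ∂μ =
      (∫ s : sphere (0 : E) 1, w s ∂μ.toSphere) *
        ∫ r, χ r ∂Measure.volumeIoiPow (Module.finrank ℝ E - 1) := fun w => by
    have h1 := μ.measurePreserving_homeomorphUnitSphereProd.integral_comp
      (Homeomorph.measurableEmbedding _) fun z => w z.1 * χ z.2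
    rw [integral_prod_mul (fun s : sphere (0 : E) 1 => w s) χ] at h1
    refine Eq.trans ?_ h1
    rw [← integral_indicator measurableSet_ball]
    refine ((congrArg (integral · _) (restrict_compl_singleton 0)).symm.trans
      (integral_subtype_comap (measurableSet_singleton _).compl _).symm).trans ?_
    refine integral_congr_ae (.of_forall fun x => ?_)
    have e : (homeomorphUnitSphereProd E x).2 ∈ Iio (⟨1, mem_Ioi.2 one_pos⟩ : Ioi (0 : ℝ)) ↔
        x.1 ∈ ball (0 : E) 1 := by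
      rw [mem_Iio, ← Subtype.coe_lt_coe, homeomorphUnitSphereProd_apply_snd_coe,
        mem_ball_zero_iff]
    by_cases h : x.1 ∈ ball (0 : E) 1
    · simp only [χ, indicator_of_mem h, indicator_of_mem (e.2 h),
        homeomorphUnitSphereProd_apply_fst_coe, homeomorphUnitSphereProd_apply_snd_coe, mul_comm]
    · simp only [χ, indicator_of_notMem h, indicator_of_notMem (mt e.1 h), mul_zero]
  refine ⟨_, lt_of_le_of_ne h2 fun h0 => ?_, k⟩
  have k1 := k fun _ => 1
  rw [← h0, mul_zero] at k1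
  simp only [mul_one] at k1
  have k2 := (setIntegral_pos_iff_support_of_nonneg_ae (μ := μ) (s := ball (0 : E) 1)
    (f := fun v => ‖v‖) (.of_forall fun v => norm_nonneg v)
    ((continuous_norm.continuousOn.integrableOn_compact (isCompact_closedBall 0 1)).mono_set
      ball_subset_closedBall)).2 ((continuous_norm.isOpen_support.inter isOpen_ball).measure_pos μ
        (by
          obtain ⟨v, hv⟩ := exists_norm_eq E (show (0 : ℝ) ≤ 1 / 2 by norm_num)
          exact ⟨v, by simp [hv], mem_ball_zero_iff.2 (by rw [hv]; norm_num)⟩))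
  exact k2.ne' k1

variable [Dim]

theorem ae_sph {P : V → Prop} (h : ∀ᵐ v : V, v ≠ 0 → ‖v‖ < 1 → P (‖v‖⁻¹ • v)) :
    ∀ᵐ b : sphere (0 : V) 1 ∂(volume : Measure V).toSphere, P b := by
  have h1 := ((volume : Measure V).measurePreserving_homeomorphUnitSphereProd.symm
    (homeomorphUnitSphereProd V).toMeasurableEquiv).quasiMeasurePreserving.ae
    ((ae_restrict_iff_subtype (measurableSet_singleton (0 : V)).compl).1 (ae_restrict_of_ae h))
  filter_upwards [Measure.ae_ae_of_ae_prod h1] with b hb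
  obtain ⟨r, h2, h3⟩ := Measure.exists_mem_of_measure_ne_zero_of_ae
    (s := Iio (⟨1, mem_Ioi.2 one_pos⟩ : Ioi (0 : ℝ))) (by
      rw [Measure.volumeIoiPow_apply_Iio]
      exact (ENNReal.ofReal_pos.2 (by positivity)).ne') (ae_restrict_of_ae hb)
  have r0 : 0 < r.1 := r.2
  have n : ‖r.1 • b.1‖ = r.1 := by
    rw [norm_smul, norm_eq_of_mem_sphere, mul_one, Real.norm_of_nonneg r0.le]
  have := h3 (norm_ne_zero_iff.1 (n.trans_ne r0.ne')) (n.trans_lt h2)
  change P (‖r.1 • b.1‖⁻¹ • r.1 • b.1) at this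
  rwa [n, inv_smul_smul₀ r0.ne'] at this

theorem ae_tr {R : V × V → Prop} (h : ∀ᵐ z : V × V, z ∈ B → R (nr z)) :
    ∀ᵐ x : V, ∀ᵐ b : sphere (0 : V) 1 ∂(volume : Measure V).toSphere, R (x, b) :=
  (Measure.ae_ae_of_ae_prod h).mono fun x hx => ae_sph (P := fun b => R (x, b))
    (hx.mono fun _ hv h0 h1 => hv ⟨h0, h1⟩)

theorem m_wt {u : V × V → ℝ} (hu : Measurable u) : Measurable fun z : V × V => ‖z.2‖ * ex u z :=
  measurable_snd.norm.mul ((hu.comp (measurable_fst.prodMk
    (measurable_snd.norm.inv.smul measurable_snd))).indicator oB.measurableSet)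

theorem b_wt {u : V × V → ℝ} {C : ℝ} (h : ∀ z, |u z| ≤ C) (z : V × V) : |‖z.2‖ * ex u z| ≤ C :=
  have h0 := (abs_nonneg _).trans (h z)
  b_mul h0 (fun w => by
    by_cases hw : w ∈ B
    · rw [ex, indicator_of_mem hw]
      exact h _
    · rwa [ex, indicator_of_notMem hw, abs_zero]) z

theorem line {m : MF} (j : m.Jac) {H : V × V → ℝ} {K : ℝ} {z : V × V} (hK : 0 ≤ K)
    (hd : ∀ S, 0 ≤ S → -K ≤ ∫ t in (0 : ℝ)..S, H (m.Z t (nr z))) (S : ℝ) (hS : 0 ≤ S) :
    -K ≤ ∫ t in (0 : ℝ)..S, ‖(m.Z t z).2‖ * ex H (m.Z t z) := by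
  by_cases hz : z ∈ B
  · simp only [ex_fl j _ hz, j.norm, intervalIntegral.integral_const_mul]
    rw [← smul_eq_mul, intervalIntegral.smul_integral_comp_mul_left (fun u => H (m.Z u (nr z))),
      mul_zero]
    exact hd _ (by positivity)
  · have e : ∀ t, ex H (m.Z t z) = 0 := fun t =>
      indicator_of_notMem (mt (B_iff (j.norm t z)).1 hz) _
    simp only [e, mul_zero, intervalIntegral.integral_zero, neg_nonpos, hK]

/-- The averaging step. -/
theorem avg_eq {m : MF} {Γ : Type} [Group Γ] [MulAction Γ V] {O : Γ → V → V ≃ₗᵢ[ℝ] V} (h : m.OK)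
    (j : m.Jac) (A : Act m Γ O) (fd : FdP dm Γ) {P : V × V → Prop} {H : V × V → ℝ} {K C : ℝ}
    (hP : ∀ᵐ z : V × V, P (nr z)) (mH : Measurable H) (bH : ∀ z, |H z| ≤ C)
    (iH : ∀ (γ : Γ) (z : V × V), ‖z.2‖ = 1 → H (ac O γ z) = H z) (K0 : 0 ≤ K)
    (hd : ∀ z, P z → ∀ S, 0 ≤ S → -K ≤ ∫ t in (0 : ℝ)..S, H (m.Z t z))
    (hG : ∀ᵐ x : V, sph (fun a => H (x, a)) ≤ 0) : ∀ᵐ x : V, sph (fun a => H (x, a)) = 0 := by
  obtain ⟨_, fd⟩ := fd
  refine measure_null_of_locally_null _ fun x0 _ => ?_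
  obtain ⟨D, mD, bD, nD, cov, un⟩ := fd x0
  suffices k : ∀ᵐ x : V, x ∈ D → sph (fun a => H (x, a)) = 0 by
    refine ⟨_, inter_mem_nhdsWithin _ nD, measure_mono_null ?_ (ae_iff.1 k)⟩
    exact fun x hx hy => hx.1 (hy hx.2)
  have mD' : MeasurableSet (D ×ˢ (univ : Set V)) := mD.prod .univ
  have el : (mu m).restrict (D ×ˢ univ) = ((nu m).prod volume).restrict (D ×ˢ ball 0 1) := by
    rw [mu, Measure.restrict_restrict mD', prod_inter_prod, inter_univ, univ_inter]
  have fin : IsFiniteMeasure ((nu m).restrict D) := by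
    refine isFiniteMeasure_restrict.2 (ne_of_lt ?_)
    have : IsLocallyFiniteMeasure (nu m) := .withDensity_ofReal (cdet h)
    exact bD.measure_lt_top
  have fb : IsFiniteMeasure ((volume : Measure V).restrict (ball 0 1)) :=
    isFiniteMeasure_restrict.2 measure_ball_lt_top.ne
  have fl' : IsFiniteMeasure ((mu m).restrict (D ×ˢ univ)) := by
    rw [el, ← Measure.prod_restrict]
    infer_instance
  have a1 : nu m ≪ volume := withDensity_absolutelyContinuous _ _
  have a2 : volume ≪ nu m := withDensity_absolutelyContinuous'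
    (cdet h).measurable.ennreal_ofReal.aemeasurable (.of_forall fun x =>
      (ENNReal.ofReal_pos.2 (abs_pos.2 (det_ne h x))).ne')
  have hP' : ∀ᵐ z ∂(mu m).restrict (D ×ˢ univ), P (nr z) :=
    el ▸ ae_restrict_of_ae ((a1.prod (.refl _)).ae_le hP)
  have k0 := flow_ae ((mu m).restrict (D ×ˢ univ)) m.Z h.cZ.continuous.measurable
    (fun z => ‖z.2‖ * ex H z) (m_wt mH) C K (b_wt bH)
    (fun t => avg (mu m) (ac O) (fun x => by simp only [ac, one_smul, A.one])
      (fun γ δ x => by simp only [ac, mul_smul, A.mul]) (mp_ac A) _ mD'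
      (fun x => (cov x.1).imp fun γ hγ => ⟨hγ, trivial⟩) (fun γ x h1 h2 => un γ x.1 h1.1 h2.1)
      (fl h t) (mp_fl h j t) (fun γ x => A.flow γ t x) (fun z => ‖z.2‖ * ex H z)
      fun γ z => by
        rw [i_ex iH]
        exact congrArg (· * _) ((O γ z.1).norm_map z.2))
    (hP'.mono fun z hz => line j K0 (hd _ hz))
  have jG : Integrable (fun z : V × V => ‖z.2‖ * ex H z) ((mu m).restrict (D ×ˢ univ)) :=
    .of_bound (m_wt mH).aestronglyMeasurable C (.of_forall (b_wt bH))
  obtain ⟨c, c0, hc⟩ := polar_eq (volume : Measure V)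
  have e : ∀ x, ∫ v in ball (0 : V) 1, ‖v‖ * ex H (x, v) = sph (fun a => H (x, a)) * c :=
    fun x => by
    refine Eq.trans (setIntegral_congr_fun measurableSet_ball fun v hv => ?_)
      (hc fun a => H (x, a))
    by_cases h0 : v = 0
    · simp only [h0, norm_zero, zero_mul]
    · have hb : (x, v) ∈ B := And.intro h0 (mem_ball_zero_iff.1 hv)
      simp only [ex, indicator_of_mem hb, nr]
  rw [el, ← Measure.prod_restrict] at jG k0
  rw [integral_prod _ jG] at k0
  have j1 := jG.integral_prod_left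
  simp only [e] at k0 j1
  have n0 : 0 ≤ᵐ[(nu m).restrict D] fun x => -(sph (fun a => H (x, a)) * c) :=
    (ae_restrict_of_ae (a1.ae_le hG)).mono fun x hx =>
      neg_nonneg.2 (mul_nonpos_of_nonpos_of_nonneg hx c0.le)
  have k3 := (integral_eq_zero_iff_of_nonneg_ae n0 j1.neg).1
    (le_antisymm (by rw [integral_neg]; linarith) (integral_nonneg_of_ae n0))
  rw [EventuallyEq, ae_restrict_iff' mD] at k3
  filter_upwards [a2.ae_le k3] with x hx h1
  exact (mul_eq_zero.1 (neg_eq_zero.1 (hx h1))).resolve_right c0.ne'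

end

end Pool.Agent.MP_3ee8cb_gt.CYO
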