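import Pool.Agent.MP_3ee8cb_gt.CYO.Meas
import Pool.Agent.MP_3ee8cb_gt.CYO.Int

/-! The equality case holds over almost every point. -/

namespace Pool.Agent.MP_3ee8cb_gt.CYO

open Set MeasureTheory Filter Topology DN DN.SI

noncomputable section

variable [Dim]

theorem sODE : SODE := by
  intro m m' φ Γ Λ _ _ _ _ ρ O O' a o j o' j' cf A A' he fd ha u' hg hw
  have T0 : (0 : ℝ) ≤ 1 + dm / 2 := by positivity
  have m0 : Measurable fun z => min (wm m' φ a z) (1 + dm / 2) :=
    (m_wm o' cf a).min measurable_const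
  have b0 : ∀ z, 0 ≤ min (wm m' φ a z) (1 + dm / 2) := fun z => le_min wm_nn T0
  have mH : Measurable fun z => 2 * (min (wm m' φ a z) (1 + dm / 2) - 1) :=
    (m0.sub_const 1).const_mul 2
  have bH : ∀ z, |2 * (min (wm m' φ a z) (1 + dm / 2) - 1)| ≤ 2 + dm := fun z =>
    abs_le.2 ⟨by linarith [b0 z], by linarith [min_le_right (wm m' φ a z) (1 + dm / 2)]⟩
  have gd := ae_tr (hg.mono fun z h _ => h)
  have key : ∀ᵐ x : V, ENNReal.ofReal (sph fun b => min (wm m' φ a (x, b)) (1 + dm / 2)) ≤
      ms m' (fr φ x) a ∧ sph (fun b => 2 * (min (wm m' φ a (x, b)) (1 + dm / 2) - 1)) =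
        2 * (sph (fun b => min (wm m' φ a (x, b)) (1 + dm / 2)) -
          ((volume : Measure V).toSphere univ).toReal) := by
    filter_upwards [gd] with x h2
    have i1 : Integrable (fun b : Metric.sphere (0 : V) 1 => min (wm m' φ a (x, b)) (1 + dm / 2))
        (volume : Measure V).toSphere :=
      .of_bound ((m0.comp measurable_prodMk_left).comp measurable_subtype_coe).aestronglyMeasurable
        (1 + dm / 2) (.of_forall fun b => abs_le.2 ⟨by linarith [b0 (x, b)], min_le_right _ _⟩)
    constructor
    · rw [sph, ofReal_integral_eq_lintegral_ofReal i1 (.of_forall fun b => b0 _)]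
      refine lintegral_mono_ae (h2.mono fun b g => ENNReal.ofReal_le_ofReal ?_)
      exact (min_le_left _ _).trans_eq (wm_eq g.ne g.dif)
    · rw [sph, integral_const_mul, integral_sub i1 (integrable_const 1), integral_const,
        smul_eq_mul, mul_one]
      rfl
  have fin := avg_eq o j A fd (P := Gd m m' φ a) (K := 2 * (dm / a)) hg mH bH
    (fun γ z hz => by rw [wm_inv A A' he γ fun e => by simp [e] at hz]) (by positivity)
    (fun z g S hS => ?_) ?_
  · filter_upwards [fin, key, hw] with x h1 h2 h3
    refine le_antisymm h3 (le_trans (le_of_eq ?_) h2.1)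
    rw [h2.2, mul_eq_zero, sub_eq_zero] at h1
    rw [h1.resolve_left two_ne_zero, ENNReal.ofReal_toReal (measure_ne_top _ _)]
  · have G := g.flow o j o' j' cf
    choose d d1 d2 using fun s => (G s).ric o j o' j' cf ha u'
    have d3 : ∀ s, HasDerivAt (fun t => m'.tr (fr φ (m.Z t z).1) (m.Z t z).2) (d s) s := fun s => by
      have := HasDerivAt.comp_sub_const s s
        (f := fun t => m'.tr (fr φ (m.Z t (m.Z s z)).1) (m.Z t (m.Z s z)).2)
        (by rw [sub_self]; exact d1 s)
      simpa only [← o.add, sub_add_cancel] using this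
    have k := intervalIntegral.sub_le_integral_of_hasDeriv_right_of_le hS
      (φ := fun t => 2 * (min (wm m' φ a (m.Z t z)) (1 + dm / 2) - 1))
      (fun t _ => (d3 t).continuousAt.continuousWithinAt) (fun t _ => (d3 t).hasDerivWithinAt)
      (Measure.integrableOn_of_bounded (M := 2 + dm) measure_Icc_lt_top.ne
        (mH.comp (o.cZ.continuous.measurable.comp
          (measurable_id.prodMk measurable_const))).aestronglyMeasurable
        (.of_forall fun t => bH _)) fun t _ => by
        rw [wm_eq (G t).ne (G t).dif]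
        exact d2 t
    have b1 := abs_le.1 ((G S).bd o o' cf ha).2.2
    have b2 := abs_le.1 ((G 0).bd o o' cf ha).2.2
    linarith [b1.1, b2.2]
  · filter_upwards [key, hw] with x h2 h3
    rw [h2.2]
    exact mul_nonpos_of_nonneg_of_nonpos zero_le_two (sub_nonpos.2
      ((ENNReal.ofReal_le_iff_le_toReal (measure_ne_top _ _)).1 (h2.1.trans h3)))

end

end Pool.Agent.MP_3ee8cb_gt.CYO
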