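import Pool.Agent.MP_3ee8cb_gt.CYO.Ric
import Pool.Agent.MP_3ee8cb_gt.DN.Top2
import Pool.Agent.MP_3ee8cb_gt.DNSI.Int

/-! A measurable and invariant version of the weight. -/

namespace Pool.Agent.MP_3ee8cb_gt.CYO

open Set Filter Topology DN DN.SC DN.SI
open scoped RealInnerProductSpace

noncomputable section

variable [Dim]

/-- The weight as a function of the two operators. -/
def Pw (a : ℝ) (p : (V →L[ℝ] V) × (V →L[ℝ] V)) : ℝ :=
  |p.2.det| * Real.exp (-(DF.hs (a • p.1.comp p.2.inverse) / 4))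

/-- The two operators as functions of the image and the derivative. -/
def Po (m : MF) (p : (V × V) × (V × V →L[ℝ] V × V)) : (V →L[ℝ] V) × (V →L[ℝ] V) :=
  ((m.hor p.1).comp (p.2.comp (.inr ℝ V V)), (m.ver p.1).comp (p.2.comp (.inr ℝ V V)))

/-- The measurable version of `wt`. -/
def wm (m : MF) (φ : V × V → V × V) (a : ℝ) (z : V × V) : ℝ :=
  Pw a (Po m (indicator {z | z.2 ≠ 0} φ z, fderiv ℝ φ z))

variable {m m' : MF} {φ : V × V → V × V} {z : V × V} {a : ℝ}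

theorem c_hs : Continuous DF.hs :=
  continuous_finset_sum _ fun _ _ => (continuous_id.clm_apply continuous_const).norm.pow 2

theorem hs_ob (B : V →L[ℝ] V) (f : OrthonormalBasis (Fin dm) ℝ V) :
    DF.hs B = ∑ i, ‖B (f i)‖ ^ 2 := by
  have k : ∀ f : OrthonormalBasis (Fin dm) ℝ V, ∑ i, ‖B (f i)‖ ^ 2 = ∑ j,
      ‖ContinuousLinearMap.adjoint B (EuclideanSpace.basisFun (Fin dm) ℝ j)‖ ^ 2 := fun f => by
    simp only [← (EuclideanSpace.basisFun (Fin dm) ℝ).sum_sq_inner_right (B _)]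
    rw [Finset.sum_comm]
    refine Finset.sum_congr rfl fun j _ => ?_
    rw [← f.sum_sq_inner_left]
    simp only [ContinuousLinearMap.adjoint_inner_left]
  rw [k, ← k (EuclideanSpace.basisFun (Fin dm) ℝ)]
  simp only [DF.hs, EuclideanSpace.basisFun_apply]

theorem hs_conj (O : V ≃ₗᵢ[ℝ] V) {M M' : V →L[ℝ] V} (h : ∀ v, M' (O v) = O (M v)) :
    DF.hs M' = DF.hs M := by
  rw [hs_ob M' ((EuclideanSpace.basisFun (Fin dm) ℝ).map O),
    hs_ob M (EuclideanSpace.basisFun (Fin dm) ℝ)]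
  simp only [OrthonormalBasis.map_apply, h, O.norm_map]

theorem m_Pw (a : ℝ) : Measurable (Pw a) := by
  classical
  have cd : Continuous fun p : (V →L[ℝ] V) × (V →L[ℝ] V) => p.2.det :=
    ContinuousLinearMap.continuous_det.comp continuous_snd
  have c : ContinuousOn (Pw a) {p | p.2.det ≠ 0} := cd.abs.continuousOn.mul
    (Real.continuous_exp.comp_continuousOn ((c_hs.comp_continuousOn
      ((continuousOn_fst.clm_comp (c_inv continuousOn_snd fun _ h => h)).const_smul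
        a)).div_const 4).neg)
  have := c.measurable_piecewise (g := 0) continuousOn_const
    (isOpen_ne_fun cd continuous_const).measurableSet
  refine (funext fun p => ?_ : _ = Pw a) ▸ this
  by_cases h : p.2.det = 0
  · rw [piecewise_eq_of_notMem _ _ _ (not_not.2 h), Pw, h, abs_zero, zero_mul]
    rfl
  · exact piecewise_eq_of_mem _ _ _ h

theorem c_Po (o : m.OK) : Continuous (Po m) :=
  (((c_hor o).comp continuous_fst).clm_comp (continuous_snd.clm_comp continuous_const)).prodMk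
    (((c_ver o).comp continuous_fst).clm_comp (continuous_snd.clm_comp continuous_const))

theorem m_wm (o : m'.OK) (cf : C0F m m' φ) (a : ℝ) : Measurable (wm m' φ a) := by
  classical
  have := cf.cont.measurable_piecewise (g := 0) continuousOn_const isOpen_U.measurableSet
  rw [piecewise_eq_indicator] at this
  exact (m_Pw a).comp ((c_Po o).measurable.comp (this.prodMk (measurable_fderiv ℝ φ)))

theorem wm_eq (hz : z.2 ≠ 0) (hd : DifferentiableAt ℝ φ z) :
    wm m φ a z = wt m (fr φ z.1) a z.2 := by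
  rw [wm, indicator_of_mem (show z ∈ {z : V × V | z.2 ≠ 0} from hz), wt, MF.B, MF.A, MF.A',
    fr_der hd]
  rfl

theorem wm_nn : 0 ≤ wm m φ a z := mul_nonneg (abs_nonneg _) (Real.exp_pos _).le

variable {Γ Λ : Type} [Group Γ] [Group Λ] [MulAction Γ V] [MulAction Λ V] {ρ : Γ ≃* Λ}
  {O : Γ → V → V ≃ₗᵢ[ℝ] V} {O' : Λ → V → V ≃ₗᵢ[ℝ] V}

theorem ac_ne (γ : Γ) (hz : z.2 ≠ 0) : (ac O γ z).2 ≠ 0 :=
  fun e => hz ((O γ z.1).map_eq_zero_iff.1 e)

theorem ac_mul (A : Act m Γ O) {γ δ : Γ} (h : γ * δ = 1) (z : V × V) :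
    ac O γ (ac O δ z) = z := by
  simp only [ac, ← mul_smul, ← A.mul, h, one_smul, A.one]

theorem dif_ac (A : Act m Γ O) (A' : Act m' Λ O') (he : Eqv ρ O O' φ) (γ : Γ) (hz : z.2 ≠ 0)
    (hd : DifferentiableAt ℝ φ z) : DifferentiableAt ℝ φ (ac O γ z) := by
  have e := ac_mul A (inv_mul_cancel γ) z
  have d1 : DifferentiableAt ℝ (ac O γ⁻¹) (ac O γ z) := (A.c1 γ⁻¹).differentiable one_ne_zero _
  have d2 : Differentiable ℝ (ac O' (ρ γ)) := (A'.c1 _).differentiable one_ne_zero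
  refine ((d2 _).comp _ (DifferentiableAt.comp (g := φ) _ (e.symm ▸ hd) d1)).congr_of_eventuallyEq
    ?_
  filter_upwards [nb (ac_ne (O := O) γ hz)] with w hw
  exact (congrArg φ (ac_mul A (mul_inv_cancel γ) w)).symm.trans (he γ _ (ac_ne γ⁻¹ hw))

theorem der_ac (A : Act m Γ O) (A' : Act m' Λ O') (he : Eqv ρ O O' φ) (γ : Γ) (hz : z.2 ≠ 0)
    (hd : DifferentiableAt ℝ φ z) (v : V) :
    fderiv ℝ (fr φ (γ • z.1)) (O γ z.1 z.2) (O γ z.1 v) =
      fderiv ℝ (fun w : V × V => (ρ γ • w.1, O' (ρ γ) w.1 w.2)) (φ z)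
        (fderiv ℝ (fr φ z.1) z.2 v) := by
  have fd : ∀ w : V × V, DifferentiableAt ℝ φ w → DifferentiableAt ℝ (fr φ w.1) w.2 := fun w h =>
    (h.hasFDerivAt.comp w.2 (hasFDerivAt_prodMk_right w.1 w.2)).differentiableAt
  have h1 := (fd _ (dif_ac A A' he γ hz hd)).hasFDerivAt.comp z.2
    ((O γ z.1).toContinuousLinearEquiv : V →L[ℝ] V).hasFDerivAt
  have h2 := (((A'.c1 (ρ γ)).differentiable one_ne_zero) (φ z)).hasFDerivAt.comp z.2
    (fd z hd).hasFDerivAt
  have h3 := h2.congr_of_eventuallyEq (f₁ := fr φ (γ • z.1) ∘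
      ((O γ z.1).toContinuousLinearEquiv : V →L[ℝ] V)) (by
    filter_upwards [isOpen_ne.mem_nhds hz] with a h4 using he γ (z.1, a) h4)
  exact DFunLike.congr_fun (h1.unique h3) v

theorem wm_inv (A : Act m Γ O) (A' : Act m' Λ O') (he : Eqv ρ O O' φ) (γ : Γ)
    (hz : z.2 ≠ 0) : wm m' φ a (ac O γ z) = wm m' φ a z := by
  by_cases hd : DifferentiableAt ℝ φ z
  · rw [wm_eq hz hd, wm_eq (ac_ne γ hz) (dif_ac A A' he γ hz hd)]
    obtain ⟨e, h1, h2⟩ := det_conj (O γ z.1) (O' (ρ γ) (φ z).1)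
    have e0 : fr φ (γ • z.1) (O γ z.1 z.2) = (ρ γ • (φ z).1, O' (ρ γ) (φ z).1 (φ z).2) :=
      he γ z hz
    have eA : ∀ v, m'.A (fr φ (γ • z.1)) (O γ z.1 z.2) (O γ z.1 v) =
        O' (ρ γ) (φ z).1 (m'.A (fr φ z.1) z.2 v) := fun v => by
      rw [MF.A, ContinuousLinearMap.comp_apply, der_ac A A' he γ hz hd, e0]
      exact A'.hor _ _ _
    have eA' : ∀ v, m'.A' (fr φ (γ • z.1)) (O γ z.1 z.2) (O γ z.1 v) =
        O' (ρ γ) (φ z).1 (m'.A' (fr φ z.1) z.2 v) := fun v => by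
      rw [MF.A', ContinuousLinearMap.comp_apply, der_ac A A' he γ hz hd, e0]
      exact A'.ver _ _ _
    have d : |(m'.A' (fr φ (γ • z.1)) (O γ z.1 z.2)).det| = |(m'.A' (fr φ z.1) z.2).det| := by
      rw [h2 _ _ eA', abs_mul, h1, one_mul]
    change wt m' (fr φ (γ • z.1)) a (O γ z.1 z.2) = _
    rw [wt, wt, d]
    by_cases h0 : (m'.A' (fr φ z.1) z.2).det = 0
    · rw [h0, abs_zero, zero_mul, zero_mul]
    have hd' : (m'.A' (fr φ (γ • z.1)) (O γ z.1 z.2)).det ≠ 0 :=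
      abs_ne_zero.1 (d ▸ abs_ne_zero.2 h0)
    rw [hs_conj (O' (ρ γ) (φ z).1) (M := a • m'.B (fr φ z.1) z.2) fun u => by
      rw [← inv_r h0 u, smul_apply, smul_apply, ← eA', B_app hd', B_app h0, eA, map_smul]]
  · have h2 : ¬DifferentiableAt ℝ φ (ac O γ z) := fun h => hd
      (ac_mul A (inv_mul_cancel γ) z ▸ dif_ac A A' he γ⁻¹ (ac_ne γ hz) h)
    simp only [wm, Po, fderiv_zero_of_not_differentiableAt hd,
      fderiv_zero_of_not_differentiableAt h2, ContinuousLinearMap.zero_comp,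
      ContinuousLinearMap.comp_zero]

end

end Pool.Agent.MP_3ee8cb_gt.CYO
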