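import Pool.Agent.MP_3ee8cb_gt.DF.Spec

/-! Continuous conjugacies in every dimension: good vectors and the averaged inequality. -/

namespace Pool.Agent.MP_3ee8cb_gt.CYO

open Set MeasureTheory DN
open CR (FdP)
open scoped RealInnerProductSpace ENNReal

noncomputable section

variable [Dim]

/-- A continuous homogeneous map that commutes with the flows. -/
structure C0F (m m' : MF) (φ : V × V → V × V) : Prop where
  cont : ContinuousOn φ {z | z.2 ≠ 0}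
  hom : ∀ (r : ℝ) x a, 0 < r → a ≠ 0 → φ (x, r • a) = ((φ (x, a)).1, r • (φ (x, a)).2)
  norm : ∀ z, z.2 ≠ 0 → ‖(φ z).2‖ = ‖z.2‖
  flow : ∀ t z, z.2 ≠ 0 → φ (m.Z t z) = m'.Z t (φ z)

/-- A unit vector where `φ` has a contact and symplectic derivative inside the diamond. -/
structure Gd (m m' : MF) (φ : V × V → V × V) (a : ℝ) (z : V × V) : Prop where
  unit : ‖z.2‖ = 1
  dif : DifferentiableAt ℝ φ z
  al : ∀ ξ, ⟪(φ z).2, m'.hor (φ z) (fderiv ℝ φ z ξ)⟫ = ⟪z.2, m.hor z ξ⟫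
  om : ∀ ξ η, ⟪m'.hor (φ z) (fderiv ℝ φ z ξ), m'.ver (φ z) (fderiv ℝ φ z η)⟫ -
      ⟪m'.ver (φ z) (fderiv ℝ φ z ξ), m'.hor (φ z) (fderiv ℝ φ z η)⟫ =
    ⟪m.hor z ξ, m.ver z η⟫ - ⟪m.ver z ξ, m.hor z η⟫
  lt : ∀ s t ξ, m.J z ξ s = 0 → ⟪z.2, m.ver z ξ⟫ = 0 → ξ ≠ 0 →
    a * ‖m'.J (φ z) (fderiv ℝ φ z ξ) t‖ < ‖m'.J' (φ z) (fderiv ℝ φ z ξ) t‖

/-- The fibre inequality at every point of differentiability. -/
def Dia (m' : MF) (φ : V × V → V × V) (a : ℝ) : Prop := ∀ w : V × V, ‖w.2‖ = 1 →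
  DifferentiableAt ℝ φ w → ∀ t e, ⟪w.2, e⟫ = 0 → e ≠ 0 →
    a * ‖m'.J (φ w) (fderiv ℝ φ w (0, e)) t‖ < ‖m'.J' (φ w) (fderiv ℝ φ w (0, e)) t‖

/-- The last field of `Gd` follows from it. -/
def SGD : Prop := ∀ (m m' : MF) (φ : V × V → V × V) (a : ℝ) (z : V × V), m.OK → m.Jac → m'.OK →
  C0F m m' φ → Dia m' φ a → ‖z.2‖ = 1 → DifferentiableAt ℝ φ z →
  ∀ s t ξ, m.J z ξ s = 0 → ⟪z.2, m.ver z ξ⟫ = 0 → ξ ≠ 0 →
    a * ‖m'.J (φ z) (fderiv ℝ φ z ξ) t‖ < ‖m'.J' (φ z) (fderiv ℝ φ z ξ) t‖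

/-- The weight of the fibre inequality. -/
def wt (m : MF) (σ : V → V × V) (a : ℝ) (v : V) : ℝ :=
  |(m.A' σ v).det| * Real.exp (-(DF.hs (a • m.B σ v) / 4))

/-- Its total mass. -/
def ms (m : MF) (σ : V → V × V) (a : ℝ) : ℝ≥0∞ :=
  ∫⁻ b : Metric.sphere (0 : V) 1, ENNReal.ofReal (wt m σ a b) ∂(volume : Measure V).toSphere

/-- The fibre inequality is an equality over almost every point. -/
def SODE : Prop := ∀ (m m' : MF) (φ : V × V → V × V) (Γ Λ : Type) [Group Γ] [Group Λ]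
  [MulAction Γ V] [MulAction Λ V] (ρ : Γ ≃* Λ) O O' (a : ℝ), m.OK → m.Jac → m'.OK → m'.Jac →
  C0F m m' φ → Act m Γ O → Act m' Λ O' → Eqv ρ O O' φ → FdP dm Γ → 0 < a → m'.Up (a ^ 2) →
  (∀ᵐ z : V × V, Gd m m' φ a (z.1, ‖z.2‖⁻¹ • z.2)) →
  (∀ᵐ x : V, ms m' (fr φ x) a ≤ (volume : Measure V).toSphere univ) →
  ∀ᵐ x : V, ms m' (fr φ x) a = (volume : Measure V).toSphere univ

end

end Pool.Agent.MP_3ee8cb_gt.CYO
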